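import Pool.Agent.H446.AP6.CoreP
import Pool.Agent.H446.AP4.Gen
import Pool.Agent.H446.AP4.Ops

/-!
# Families of connections and operators at places
-/

set_option autoImplicit false

namespace Pool.Agent.H446.AP6

open Polynomial Finset TensorProduct Pool.Agent.H446.AP
open Pool.Agent.H446.AP4 (FlatC RegC Sup genC evT low low_coeff Phi Phi_evT exists_functional flatC_iff curv_sup sup_C
  evT_eq_zero_of_dvd curv comp ev gen ev_gen coeff_ev mapc coeff_mapc DegP RegP natDegree_gen_le)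

/-- The local ring at `𝔓` of the field `ℚ(ω)`. -/
noncomputable def OK (𝔓 : Ideal ZZ) [𝔓.IsPrime] (ω : ℂ) : Subring ℂ := OA 𝔓 ⊓ (IntermediateField.adjoin ℚ {ω}).toSubring

lemma OK_le (𝔓 : Ideal ZZ) [𝔓.IsPrime] (ω : ℂ) : OK 𝔓 ω ≤ OA 𝔓 := inf_le_left

lemma mem_OK {𝔓 : Ideal ZZ} [𝔓.IsPrime] {ω : ℂ} (h : ω ∈ OA 𝔓) : ω ∈ OK 𝔓 ω :=
  Subring.mem_inf.2 ⟨h, IntermediateField.mem_adjoin_simple_self ℚ ω⟩

lemma charP_KO' {p : ℕ} {O O' : Subring ℂ} (hO : IsPl p O) (hle : O' ≤ O) : CharP (KO p O') p := by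
  refine ⟨fun n => ?_⟩
  have h1 : ((n : ℕ) : KO p O') = Ideal.Quotient.mk (Ideal.span {((p : ℕ) : O')}) ((n : ℕ) : O') :=
    (map_natCast _ n).symm
  rw [h1, mkO_eq_zero_iff]
  constructor
  · rintro ⟨y, hy, h⟩
    have h2 : ((n : ℤ) : ℂ) = (p : ℂ) * y := by
      rw [← h]
      push_cast
      rfl
    exact Int.natCast_dvd_natCast.1 (hO.dvd _ _ (hle hy) h2)
  · rintro ⟨m, rfl⟩
    refine ⟨m, natCast_mem _ _, ?_⟩
    push_cast
    rfl

lemma aeval_of_mk {p : ℕ} {O : Subring ℂ} {z : ℂ} (hz : z ∈ O) {B : ℤ[X]}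
    (h : eval₂ (Int.castRingHom (KO p O)) (Ideal.Quotient.mk (Ideal.span {((p : ℕ) : O)}) ⟨z, hz⟩) B = 0) :
    ∃ y ∈ O, aeval z B = p * y := by
  have h3 : eval₂ (Int.castRingHom (KO p O)) (Ideal.Quotient.mk (Ideal.span {((p : ℕ) : O)}) ⟨z, hz⟩) B =
      Ideal.Quotient.mk (Ideal.span {((p : ℕ) : O)}) (eval₂ (Int.castRingHom O) ⟨z, hz⟩ B) := by
    rw [hom_eval₂, show (Ideal.Quotient.mk (Ideal.span {((p : ℕ) : O)})).comp (Int.castRingHom O) =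
      Int.castRingHom (KO p O) from RingHom.ext_int _ _]
  rw [h3] at h
  obtain ⟨y, hy, h4⟩ := (mkO_eq_zero_iff _).1 h
  refine ⟨y, hy, ?_⟩
  rw [← h4]
  have h5 : ((eval₂ (Int.castRingHom O) ⟨z, hz⟩ B : O) : ℂ) = O.subtype (eval₂ (Int.castRingHom O) ⟨z, hz⟩ B) := rfl
  rw [h5, hom_eval₂, aeval_def, show O.subtype.comp (Int.castRingHom O) = algebraMap ℤ ℂ from RingHom.ext_int _ _]
  rfl

section general

variable {𝒪 : Type*} [CommRing 𝒪] {ι : Type*} [Fintype ι] [DecidableEq ι]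

theorem exists_polyC {κ W : ℝ} (hκ : 0 ≤ κ) (δ : Derivation ℤ 𝒪 𝒪) (A : Matrix ι ι 𝒪[X]) (w : ι → ℝ)
    (hw : ∀ i, 0 ≤ w i ∧ w i ≤ W) (hA : ∀ i j, Sup (κ * (1 + w i - w j)) (A i j)) {p : ℕ} (hp : p.Prime)
    (hreg : RegC δ A p) : ∃ B : ℤ[X], ¬ (p : ℤ) ∣ B.leadingCoeff ∧ (B.natDegree : ℝ) ≤ κ * (p + W) ∧
      ∀ (R : Type) [CommRing R] [CharP R p] (c : R), FlatC δ A c p → eval₂ (Int.castRingHom R) c B = 0 := by
  classical
  have hfact : Fact p.Prime := ⟨hp⟩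
  obtain ⟨K, _, _, c, hne⟩ := hreg
  rw [flatC_iff] at hne
  push Not at hne
  obtain ⟨i, j, hij⟩ := hne
  obtain ⟨k₀, hk₀⟩ : ∃ k, ¬ ∃ g, (genC δ A p i j).coeff k = (p : 𝒪) * g := by
    by_contra hcon
    push Not at hcon
    exact hij (evT_eq_zero_of_dvd c hcon)
  obtain ⟨lam, hlam⟩ := exists_functional hk₀
  set F := genC δ A p i j with hF
  set B := low p lam F with hB
  have hBk₀ : B.coeff k₀ ≠ 0 := by
    rw [hB, low_coeff]
    intro h
    apply hlam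
    have h1 : (lam (F.coeff k₀)).val = 0 := by exact_mod_cast h
    exact (ZMod.val_eq_zero _).1 h1
  have hB0 : B ≠ 0 := by
    intro h
    rw [h, coeff_zero] at hBk₀
    exact hBk₀ rfl
  refine ⟨B, ?_, ?_, ?_⟩
  · intro h
    rw [leadingCoeff, hB, low_coeff, Int.natCast_dvd_natCast] at h
    have h1 : (lam (F.coeff (low p lam F).natDegree)).val = 0 := Nat.eq_zero_of_dvd_of_lt h (ZMod.val_lt _)
    have h2 := leadingCoeff_ne_zero.2 hB0
    rw [leadingCoeff, hB, low_coeff, h1] at h2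
    exact h2 rfl
  · have h2 := leadingCoeff_ne_zero.2 hB0
    rw [leadingCoeff, hB, low_coeff, ← hB] at h2
    have h0 : δ 0 = 0 := map_zero δ
    have h3 : F.coeff B.natDegree ≠ 0 := by
      intro h
      rw [h, map_zero] at h2
      simp at h2
    have hS : Sup (0 : ℝ) (C 1 : 𝒪[X]) := sup_C 1
    have h4 := curv_sup h0 (δ₀ := 0) hκ hS A w (fun i j => by
      rw [zero_add]
      exact hA i j) p i j B.natDegree h3
    rw [zero_mul, zero_add] at h4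
    refine h4.trans (mul_le_mul_of_nonneg_left ?_ hκ)
    have h5 := (hw i).2
    have h6 := (hw j).1
    linarith
  · intro R _ _ c hG
    have h1 := (flatC_iff _ _ _ _).1 hG i j
    have h2 := Phi_evT p lam c F
    rw [← hF] at h1
    rw [h1, LinearMap.map_zero, ← hB] at h2
    exact h2.symm

end general

/-- Good places for connections. -/
def GoodAtC {𝒪 : Type*} [CommRing 𝒪] {ι : Type*} [Fintype ι] [DecidableEq ι] (δ : Derivation ℤ 𝒪 𝒪)
    (A : Matrix ι ι 𝒪[X]) (p : ℕ) (𝔓 : Ideal ZZ) [𝔓.IsPrime] (ω : ℂ) : Prop :=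
  ∃ h : ω ∈ OK 𝔓 ω, FlatC δ A (Ideal.Quotient.mk (Ideal.span {((p : ℕ) : OK 𝔓 ω)}) ⟨ω, h⟩) p

theorem testR_of_regularC {𝒪 : Type*} [CommRing 𝒪] {ι : Type*} [Fintype ι] [DecidableEq ι]
    {κ W : ℝ} (hκ : 0 ≤ κ) (δ : Derivation ℤ 𝒪 𝒪) (A : Matrix ι ι 𝒪[X]) (w : ι → ℝ)
    (hw : ∀ i, 0 ≤ w i ∧ w i ≤ W) (hA : ∀ i j, Sup (κ * (1 + w i - w j)) (A i j)) {p : ℕ} (hp : p.Prime)
    {𝔓 : Ideal ZZ} [h𝔓 : 𝔓.IsPrime] (hp𝔓 : ((p : ℕ) : ZZ) ∈ 𝔓) (hreg : RegC δ A p) :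
    TestR κ W (GoodAtC δ A p 𝔓) p := by
  obtain ⟨B, hB1, hB2, hB3⟩ := exists_polyC hκ δ A w hw hA hp hreg
  refine ⟨hp, OA 𝔓, B, isPl_OA hp hp𝔓, hB1, hB2, ?_⟩
  rintro z ⟨hz, hflat⟩
  have hch : CharP (KO p (OK 𝔓 z)) p := charP_KO' (isPl_OA hp hp𝔓) (OK_le 𝔓 z)
  obtain ⟨y, hy, hyB⟩ := aeval_of_mk hz (hB3 _ _ hflat)
  exact ⟨OK_le _ _ hz, y, OK_le _ _ hy, hyB⟩

/-! ### Operators over `ℤ[x]` -/

/-- Good places for operators. -/
def GoodAtP {n : ℕ} (Δ : ℤ[X][X]) (a : Fin n → ℤ[X][X]) (p : ℕ) (𝔓 : Ideal ZZ) [𝔓.IsPrime] (ω : ℂ) : Prop :=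
  ω ∈ OA 𝔓 ∧ ∀ i j l, (curv (fun f : ℂ[X] => derivative f) (ev ω Δ)
      (comp (ev ω Δ) fun i => ev ω (a i)) p i j).coeff l / p ∈ OA 𝔓

theorem testR_of_regularP {n : ℕ} {δ₀ θ : ℝ} (hδ₀ : 0 ≤ δ₀) (hθ : 0 ≤ θ) {Δ : ℤ[X][X]} {a : Fin n → ℤ[X][X]}
    (ha : DegP δ₀ θ Δ a) {p : ℕ} (hp : p.Prime) {𝔓 : Ideal ZZ} [h𝔓 : 𝔓.IsPrime] (hp𝔓 : ((p : ℕ) : ZZ) ∈ 𝔓)
    (hreg : RegP Δ a p) : TestR (δ₀ + θ) (n - 1) (GoodAtP Δ a p 𝔓) p := by
  classical
  have hfact : Fact p.Prime := ⟨hp⟩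
  have hpl := isPl_OA hp hp𝔓
  obtain ⟨K, _, _, c, hne⟩ := hreg
  obtain ⟨i, j, hij⟩ : ∃ i j, curv (fun f : K[X] => derivative f) (ev c Δ) (comp (ev c Δ) fun i => ev c (a i)) p i j
      ≠ 0 := by
    by_contra hcon
    push Not at hcon
    exact hne (Matrix.ext hcon)
  obtain ⟨l, hl⟩ : ∃ l, (curv (fun f : K[X] => derivative f) (ev c Δ)
      (comp (ev c Δ) fun i => ev c (a i)) p i j).coeff l ≠ 0 := by
    by_contra hcon
    push Not at hcon
    exact hij (Polynomial.ext hcon)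
  have hl0 : (fun f : ℤ[X] => f.coeff l) 0 = 0 := coeff_zero l
  set b := mapc (fun f : ℤ[X] => f.coeff l) (gen Δ a p i j) with hb
  have hval : ∀ {K : Type} [Field K] (c : K), (curv (fun f : K[X] => derivative f) (ev c Δ)
      (comp (ev c Δ) fun i => ev c (a i)) p i j).coeff l = eval₂ (Int.castRingHom K) c b := by
    intro K _ c
    rw [← ev_gen, Matrix.map_apply, coeff_ev]
  have hbp : b.map (Int.castRingHom (ZMod p)) ≠ 0 := by
    intro h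
    apply hl
    rw [hval c]
    have h1 : C (p : ℤ) ∣ b := by
      rw [C_dvd_iff_dvd_coeff]
      intro i
      rw [← ZMod.intCast_zmod_eq_zero_iff_dvd]
      have h2 := congrArg (fun q => q.coeff i) h
      simpa only [coeff_map, eq_intCast, coeff_zero] using h2
    obtain ⟨r, hr⟩ := h1
    rw [hr, eval₂_mul, eval₂_C]
    simp
  obtain ⟨B, hB, hdeg⟩ := exists_degree_eq_of_mem_lifts
    (Polynomial.map_surjective (Int.castRingHom (ZMod p)) (ZMod.ringHom_surjective _) (b.map (Int.castRingHom (ZMod p))))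
  have hnd : B.natDegree = (b.map (Int.castRingHom (ZMod p))).natDegree := natDegree_eq_natDegree hdeg
  refine ⟨hp, OA 𝔓, B, hpl, ?_, ?_, ?_⟩
  · intro h
    have h1 : (b.map (Int.castRingHom (ZMod p))).leadingCoeff = 0 := by
      rw [leadingCoeff, ← hnd, ← hB, coeff_map, eq_intCast]
      exact (ZMod.intCast_zmod_eq_zero_iff_dvd _ _).2 h
    exact hbp (leadingCoeff_eq_zero.1 h1)
  · have h1 : (b.natDegree : ℝ) ≤ (δ₀ + θ) * (p + (n - 1)) := by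
      have hb0 : b ≠ 0 := by
        intro h
        rw [h, Polynomial.map_zero] at hbp
        exact hbp rfl
      have h2 : b.coeff b.natDegree ≠ 0 := leadingCoeff_ne_zero.2 hb0
      rw [hb, coeff_mapc hl0, ← hb] at h2
      refine natDegree_gen_le hδ₀ hθ ha p i j _ fun h => h2 ?_
      show ((gen Δ a p i j).coeff b.natDegree).coeff l = 0
      rw [h, coeff_zero]
    have h2 : (B.natDegree : ℝ) ≤ b.natDegree := by
      have h3 : B.natDegree ≤ b.natDegree := by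
        rw [hnd]
        exact natDegree_map_le
      exact_mod_cast h3
    exact h2.trans h1
  · rintro z ⟨hz, hG⟩
    refine ⟨hz, ?_⟩
    have h1 := hG i j l
    rw [hval z] at h1
    have h2 : C (p : ℤ) ∣ b - B := by
      rw [C_dvd_iff_dvd_coeff]
      intro i
      rw [← ZMod.intCast_zmod_eq_zero_iff_dvd, coeff_sub, Int.cast_sub, sub_eq_zero]
      have h2 := congrArg (fun q => q.coeff i) hB
      simp only [coeff_map, eq_intCast] at h2
      exact h2.symm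
    obtain ⟨r, hr⟩ := h2
    have hp0 : (p : ℂ) ≠ 0 := by exact_mod_cast hp.ne_zero
    obtain ⟨y, hy⟩ : ∃ y, y = eval₂ (Int.castRingHom ℂ) z b / p := ⟨_, rfl⟩
    rw [← hy] at h1
    have h3 : aeval z B = p * (y - aeval z r) := by
      have h4 : aeval z b - aeval z B = p * aeval z r := by
        rw [← map_sub, hr, map_mul, aeval_C]
        simp
      have h5 : aeval z b = p * y := by
        rw [hy, mul_div_cancel₀ _ hp0]
        rfl
      rw [h5] at h4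
      linear_combination -h4
    refine ⟨_, (OA 𝔓).sub_mem h1 ?_, h3⟩
    rw [aeval_eq_sum_range]
    refine (OA 𝔓).sum_mem fun i _ => ?_
    rw [zsmul_eq_mul]
    exact (OA 𝔓).mul_mem (intCast_mem _ _) ((OA 𝔓).pow_mem hz _)

end Pool.Agent.H446.AP6
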