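import Pool.Agent.H446.AP4.PInt
import Pool.Agent.H446.AP5.Sub

/-!
# Places of the field of the algebraic numbers
-/

set_option autoImplicit false

namespace Pool.Agent.H446.AP6

open Polynomial Finset

/-- A subring of the complex numbers that looks like the local ring of a place over `p`. -/
structure IsPl (p : ℕ) (O : Subring ℂ) : Prop where
  int : ∀ z : ℂ, IsIntegral ℤ z → z ∈ O
  inv : ∀ l : ℤ, ¬ (p : ℤ) ∣ l → ((l : ℂ))⁻¹ ∈ O
  dvd : ∀ (a : ℤ) (y : ℂ), y ∈ O → (a : ℂ) = p * y → (p : ℤ) ∣ a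

lemma IsPl.pow_dvd {p : ℕ} (hp : p.Prime) {O : Subring ℂ} (h : IsPl p O) : ∀ (k : ℕ) (a : ℤ) (z : ℂ), z ∈ O →
    (a : ℂ) = (p : ℂ) ^ k * z → (p : ℤ) ^ k ∣ a := by
  have hp0 : (p : ℂ) ≠ 0 := by exact_mod_cast hp.ne_zero
  intro k
  induction k with
  | zero => intro a z _ _; simp
  | succ k ih =>
    intro a z hz ha
    have h1 : (p : ℤ) ∣ a := by
      refine h.dvd a ((p : ℂ) ^ k * z) (O.mul_mem (O.pow_mem (natCast_mem O p) _) hz) ?_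
      rw [ha]
      ring
    obtain ⟨b, rfl⟩ := h1
    have h2 : (b : ℂ) = (p : ℂ) ^ k * z := by
      refine mul_left_cancel₀ hp0 ?_
      push_cast at ha
      rw [ha]
      ring
    have h3 := ih b z hz h2
    rw [pow_succ, mul_comm]
    exact mul_dvd_mul_left _ h3

lemma isPl_pInt (p : ℕ) [hp : Fact p.Prime] : IsPl p (AP4.pInt p) where
  int z hz := ⟨1, by
    rw [← Nat.cast_one, Int.natCast_dvd_natCast, Nat.dvd_one]
    exact hp.out.ne_one, by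
    rw [Int.cast_one, one_mul]
    exact hz⟩
  inv l hl := AP4.inv_mem_pInt hl
  dvd a y hy h := by
    have h1 := AP4.pow_dvd_of_mem (k := 1) hy (by rw [pow_one]; exact h)
    rwa [pow_one] at h1

/-- The ring of the algebraic integers. -/
abbrev ZZ : Type := integralClosure ℤ ℂ

/-- The numbers that are integral at a prime ideal of the ring of the algebraic integers. -/
def OA (𝔓 : Ideal ZZ) [h𝔓 : 𝔓.IsPrime] : Subring ℂ where
  carrier := {z | ∃ s : ZZ, s ∉ 𝔓 ∧ IsIntegral ℤ ((s : ℂ) * z)}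
  zero_mem' := ⟨1, fun h => h𝔓.ne_top ((Ideal.eq_top_iff_one _).2 h), by
    rw [mul_zero]
    exact isIntegral_zero⟩
  one_mem' := ⟨1, fun h => h𝔓.ne_top ((Ideal.eq_top_iff_one _).2 h), by
    rw [mul_one]
    exact (1 : ZZ).2⟩
  add_mem' := by
    rintro a b ⟨s, hs, hs'⟩ ⟨t, ht, ht'⟩
    refine ⟨s * t, fun h => (h𝔓.mem_or_mem h).elim hs ht, ?_⟩
    have h1 : ((s * t : ZZ) : ℂ) * (a + b) = (t : ℂ) * ((s : ℂ) * a) + (s : ℂ) * ((t : ℂ) * b) := by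
      push_cast
      ring
    rw [h1]
    exact (t.2.mul hs').add (s.2.mul ht')
  mul_mem' := by
    rintro a b ⟨s, hs, hs'⟩ ⟨t, ht, ht'⟩
    refine ⟨s * t, fun h => (h𝔓.mem_or_mem h).elim hs ht, ?_⟩
    have h1 : ((s * t : ZZ) : ℂ) * (a * b) = ((s : ℂ) * a) * ((t : ℂ) * b) := by
      push_cast
      ring
    rw [h1]
    exact hs'.mul ht'
  neg_mem' := by
    rintro a ⟨s, hs, hs'⟩
    refine ⟨s, hs, ?_⟩
    rw [mul_neg]
    exact hs'.neg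

lemma intCast_notMem {p : ℕ} (hp : p.Prime) {𝔓 : Ideal ZZ} (h𝔓 : 𝔓.IsPrime) (hp𝔓 : ((p : ℕ) : ZZ) ∈ 𝔓)
    {l : ℤ} (hl : ¬ (p : ℤ) ∣ l) : ((l : ℤ) : ZZ) ∉ 𝔓 := by
  intro h
  have h1 : IsCoprime (p : ℤ) l := (Prime.coprime_iff_not_dvd (Nat.prime_iff_prime_int.1 hp)).2 hl
  obtain ⟨a, b, hab⟩ := h1
  apply h𝔓.ne_top
  rw [Ideal.eq_top_iff_one]
  have h2 : (1 : ZZ) = (a : ZZ) * ((p : ℕ) : ZZ) + (b : ZZ) * (l : ZZ) := by
    have := congrArg (fun x : ℤ => (x : ZZ)) hab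
    push_cast at this
    exact this.symm
  rw [h2]
  exact 𝔓.add_mem (𝔓.mul_mem_left _ hp𝔓) (𝔓.mul_mem_left _ h)

lemma isPl_OA {p : ℕ} (hp : p.Prime) {𝔓 : Ideal ZZ} [h𝔓 : 𝔓.IsPrime] (hp𝔓 : ((p : ℕ) : ZZ) ∈ 𝔓) : IsPl p (OA 𝔓) where
  int z hz := ⟨1, fun h => h𝔓.ne_top ((Ideal.eq_top_iff_one _).2 h), by
    have : ((1 : ZZ) : ℂ) * z = z := one_mul z
    rw [this]
    exact hz⟩
  inv l hl := by
    refine ⟨(l : ZZ), intCast_notMem hp h𝔓 hp𝔓 hl, ?_⟩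
    have hl0 : (l : ℂ) ≠ 0 := by
      intro h
      have : l = 0 := by exact_mod_cast h
      exact hl (this ▸ dvd_zero _)
    have h1 : (((l : ℤ) : ZZ) : ℂ) = (l : ℂ) := by push_cast; rfl
    rw [h1, mul_inv_cancel₀ hl0]
    exact isIntegral_one
  dvd a y hy h := by
    by_contra hcon
    obtain ⟨s, hs, hs'⟩ := hy
    have h1 : s * ((a : ℤ) : ZZ) = ((p : ℕ) : ZZ) * ⟨(s : ℂ) * y, hs'⟩ := by
      apply Subtype.ext
      push_cast
      rw [h]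
      ring
    have h2 : s * ((a : ℤ) : ZZ) ∈ 𝔓 := by
      rw [h1]
      exact 𝔓.mul_mem_right _ hp𝔓
    exact (h𝔓.mem_or_mem h2).elim hs (intCast_notMem hp h𝔓 hp𝔓 hcon)

/-! ### The ring modulo `p` -/

/-- The ring `O / p`. -/
abbrev KO (p : ℕ) (O : Subring ℂ) : Type := O ⧸ Ideal.span {((p : ℕ) : O)}

lemma mkO_eq_zero_iff {p : ℕ} {O : Subring ℂ} (z : O) :
    (Ideal.Quotient.mk (Ideal.span {((p : ℕ) : O)}) z = 0) ↔ ∃ y ∈ O, (z : ℂ) = p * y := by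
  rw [Ideal.Quotient.eq_zero_iff_mem, Ideal.mem_span_singleton]
  constructor
  · rintro ⟨y, hy⟩
    refine ⟨y, y.2, ?_⟩
    rw [hy]
    push_cast
    rfl
  · rintro ⟨y, hy, h⟩
    refine ⟨⟨y, hy⟩, ?_⟩
    ext
    rw [h]
    push_cast
    rfl

lemma charP_KO {p : ℕ} {O : Subring ℂ} (hO : IsPl p O) : CharP (KO p O) p := by
  refine ⟨fun n => ?_⟩
  have h1 : ((n : ℕ) : KO p O) = Ideal.Quotient.mk (Ideal.span {((p : ℕ) : O)}) ((n : ℕ) : O) :=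
    (map_natCast _ n).symm
  rw [h1, mkO_eq_zero_iff]
  constructor
  · rintro ⟨y, hy, h⟩
    have h2 : ((n : ℤ) : ℂ) = (p : ℂ) * y := by
      rw [← h]
      push_cast
      rfl
    exact Int.natCast_dvd_natCast.1 (hO.dvd _ _ hy h2)
  · rintro ⟨m, rfl⟩
    refine ⟨m, natCast_mem _ _, ?_⟩
    push_cast
    rfl

end Pool.Agent.H446.AP6
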