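import Pool.Agent.H446.AP6.VandP
import Pool.Agent.H446.AP4.Count

/-!
# The core inequalities for proportions of places
-/

set_option autoImplicit false
set_option maxHeartbeats 1000000

namespace Pool.Agent.H446.AP6

open Polynomial Finset Pool.Agent.H446.AP Pool.Agent.H446.AP2 Pool.Agent.H446.AP4

open Classical in
/-- The number of the roots of `P` with the property `g`. -/
noncomputable def gc (g : ℂ → Prop) (P : ℤ[X]) : ℕ := ((P.map (Int.castRingHom ℂ)).roots.filter g).card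

lemma gc_le (g : ℂ → Prop) (P : ℤ[X]) : gc g P ≤ P.natDegree := by
  classical
  unfold gc
  refine (Multiset.card_le_card (Multiset.filter_le _ _)).trans ?_
  refine (card_roots' _).trans ?_
  exact natDegree_map_le

lemma gc_mul (g : ℂ → Prop) {P Q : ℤ[X]} (h : P * Q ≠ 0) : gc g (P * Q) = gc g P + gc g Q := by
  classical
  unfold gc
  rw [Polynomial.map_mul, roots_mul, Multiset.filter_add, Multiset.card_add]
  rw [← Polynomial.map_mul]
  intro h0
  exact h ((Polynomial.map_eq_zero_iff (RingHom.injective_int _)).1 h0)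

lemma gc_pd (g : ℂ → Prop) {S : Finset ℤ[X]} (hS : ∀ P ∈ S, Orb P) : gc g (pd S) = ∑ P ∈ S, gc g P := by
  classical
  induction S using Finset.induction_on with
  | empty =>
    unfold gc pd
    simp
  | insert P S hP ih =>
    have h1 : pd (insert P S) = P * pd S := by
      unfold pd
      rw [prod_insert hP]
    have h2 : pd (insert P S) ≠ 0 := pd_ne_zero hS
    rw [h1] at h2 ⊢
    rw [gc_mul g h2, sum_insert hP, ih fun Q hQ => hS Q (mem_insert_of_mem hQ)]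

/-- The number of the good conjugates of the elements of `S`. -/
noncomputable def dgp (G : ℕ → ℂ → Prop) (S : Finset ℤ[X]) (p : ℕ) : ℕ := ∑ P ∈ S, gc (G p) P

lemma dgp_le (G : ℕ → ℂ → Prop) (S : Finset ℤ[X]) (p : ℕ) : dgp G S p ≤ ∑ P ∈ S, P.natDegree :=
  Finset.sum_le_sum fun P _ => gc_le _ P

/-- A polynomial of degree at most `θ (p + W)`, not zero modulo `p`, whose values at the good numbers are divisible
by `p`. -/
def TestR (θ W : ℝ) (g : ℂ → Prop) (p : ℕ) : Prop :=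
  p.Prime ∧ ∃ (O : Subring ℂ) (B : ℤ[X]), IsPl p O ∧ ¬ (p : ℤ) ∣ B.leadingCoeff ∧ (B.natDegree : ℝ) ≤ θ * (p + W) ∧
    ∀ z, g z → z ∈ O ∧ ∃ y ∈ O, aeval z B = p * y

lemma prime_bound' {θ W : ℝ} (hθ : 0 < θ) (hW : 0 ≤ W) {G : ℕ → ℂ → Prop} {p : ℕ} (hT : TestR θ W (G p) p)
    {S : Finset ℤ[X]} (hne : S.Nonempty) (hS : ∀ P ∈ S, Orb P) :
    ∃ r : ℕ, (p : ℤ) ^ r ∣ rd (pd S) ∧ (dgp G S p : ℝ) ^ 2 / (θ * (p + W)) - 2 * dgp G S p ≤ r := by
  classical
  obtain ⟨hp, O, B, hO, hB, hBd, hBG⟩ := hT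
  have hp0 : (0 : ℝ) < p := by exact_mod_cast hp.pos
  have hpos : 0 < θ * (p + W) := by positivity
  obtain ⟨v, hv, -⟩ := exists_roots ((pd S).map (Int.castRingHom ℂ))
  set T : Finset (Fin ((pd S).map (Int.castRingHom ℂ)).natDegree) := univ.filter fun i => G p (v i) with hT
  have hTc : T.card = dgp G S p := by
    unfold dgp
    rw [← gc_pd (G p) hS]
    unfold gc
    rw [hv, Multiset.filter_map, Multiset.card_map, hT]
    rfl
  rcases Nat.eq_zero_or_pos (dgp G S p) with h | h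
  · refine ⟨0, by simp, ?_⟩
    rw [h]
    simp
  · have hgood : ∀ i ∈ T, v i ∈ O ∧ ∃ y ∈ O, aeval (v i) B = p * y := fun i hi => hBG _ (mem_filter.1 hi).2
    have hq : 0 < B.natDegree := by
      rcases Nat.eq_zero_or_pos B.natDegree with h0 | h0
      · exfalso
        rw [← hTc] at h
        obtain ⟨i, hi⟩ := card_pos.1 h
        obtain ⟨-, y, hy, hyB⟩ := hgood i hi
        obtain ⟨c, hc⟩ := natDegree_eq_zero.1 h0
        rw [← hc, aeval_C, eq_intCast] at hyB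
        have h3 := hO.dvd _ _ hy hyB
        rw [← hc, leadingCoeff_C] at hB
        exact hB h3
      · exact h0
    have hdpos := natDegree_pd_pos hS hne
    refine ⟨2 * vE T.card B.natDegree, pow_dvd_rd hp hO hdpos hB hv T hgood, ?_⟩
    have h1 := vE_ge (D := T.card) hq
    rw [hTc] at h1 ⊢
    have hq' : (0 : ℝ) < B.natDegree := by exact_mod_cast hq
    have h2 : (dgp G S p : ℝ) ^ 2 / (θ * (p + W)) ≤ (dgp G S p : ℝ) ^ 2 / B.natDegree :=
      div_le_div_of_nonneg_left (sq_nonneg _) hq' hBd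
    have h3 : (dgp G S p : ℝ) ^ 2 / B.natDegree = 2 * ((dgp G S p : ℝ) ^ 2 / (2 * B.natDegree)) := by
      field_simp
    push_cast
    linarith

/-- **The core inequality**, with the discriminant. -/
theorem core_disc' {θ W : ℝ} (hθ : 0 < θ) (hW : 0 ≤ W) {G : ℕ → ℂ → Prop} (Q : Finset ℕ)
    (hQ : ∀ p ∈ Q, TestR θ W (G p) p) {S : Finset ℤ[X]} (hne : S.Nonempty) (hS : ∀ P ∈ S, Orb P) :
    ∑ p ∈ Q, Real.log p * ((dgp G S p : ℝ) ^ 2 / (p + W)) ≤
      θ * Real.log |(rd (pd S) : ℝ)| + 2 * θ * ∑ p ∈ Q, Real.log p * dgp G S p := by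
  classical
  have hex : ∀ p ∈ Q, ∃ r : ℕ, (p : ℤ) ^ r ∣ rd (pd S) ∧
      (dgp G S p : ℝ) ^ 2 / (θ * (p + W)) - 2 * dgp G S p ≤ r := fun p hp => prime_bound' hθ hW (hQ p hp) hne hS
  choose! r hr using hex
  have h1 := sum_log_le Q (fun p hp => (hQ p hp).1) r (rd (pd S)) (rd_pd_ne_zero hS)
    fun p hp => (hr p hp).1
  have h3 : ∑ p ∈ Q, Real.log p * ((dgp G S p : ℝ) ^ 2 / (θ * (p + W)) - 2 * dgp G S p) ≤
      ∑ p ∈ Q, Real.log p * r p :=
    Finset.sum_le_sum fun p hp => mul_le_mul_of_nonneg_left (hr p hp).2 (logp_nonneg p)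
  have h4 : ∑ p ∈ Q, Real.log p * ((dgp G S p : ℝ) ^ 2 / (θ * (p + W)) - 2 * dgp G S p) =
      θ⁻¹ * ∑ p ∈ Q, Real.log p * ((dgp G S p : ℝ) ^ 2 / (p + W)) - 2 * ∑ p ∈ Q, Real.log p * dgp G S p := by
    rw [Finset.mul_sum, Finset.mul_sum, ← Finset.sum_sub_distrib]
    refine Finset.sum_congr rfl fun p _ => ?_
    rw [← div_div, div_eq_mul_inv _ θ]
    ring
  rw [h4] at h3
  have h5 := h3.trans h1
  have h6 : θ⁻¹ * ∑ p ∈ Q, Real.log p * ((dgp G S p : ℝ) ^ 2 / (p + W)) ≤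
      Real.log |(rd (pd S) : ℝ)| + 2 * ∑ p ∈ Q, Real.log p * dgp G S p := by linarith
  rw [inv_mul_le_iff₀ hθ] at h6
  linarith

/-- **The core inequality.** -/
theorem core' {θ W : ℝ} (hθ : 0 < θ) (hW : 0 ≤ W) {G : ℕ → ℂ → Prop} (Q : Finset ℕ)
    (hQ : ∀ p ∈ Q, TestR θ W (G p) p) {S : Finset ℤ[X]} (hne : S.Nonempty) {H : ℝ} (hH : 0 ≤ H)
    (hS : ∀ P ∈ S, Orb P ∧ Real.log (mm P) ≤ P.natDegree * H) {D : ℝ} (hD : D = ∑ P ∈ S, (P.natDegree : ℝ)) :
    ∑ p ∈ Q, Real.log p * ((dgp G S p : ℝ) ^ 2 / (p + W)) ≤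
      2 * θ * (D ^ 2 * H + D * Real.log D + ∑ p ∈ Q, Real.log p * dgp G S p) := by
  have h1 := core_disc' hθ hW Q hQ hne fun P hP => (hS P hP).1
  have h2 := mul_le_mul_of_nonneg_left (log_rd_pd_le hne hH hS hD) hθ.le
  linarith

/-- **One algebraic number.** -/
theorem single' {θ W : ℝ} (hθ : 0 < θ) (hW : 0 ≤ W) : ∃ C : ℝ, 0 ≤ C ∧ ∀ (G : ℕ → ℂ → Prop) (y H : ℝ),
    0 ≤ H → ∀ P : ℤ[X], Orb P → Real.log (mm P) ≤ P.natDegree * H →
      (∀ p ∈ prs y P.natDegree, TestR θ W (G p) p) →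
        ∑ p ∈ prs y P.natDegree, ((gc (G p) P : ℝ) / P.natDegree) ^ 2 * (Real.log p / p) ≤ 2 * θ * H + C := by
  classical
  obtain ⟨c₂, hc₂0, hc₂⟩ := sum_log_sq
  refine ⟨6 * θ + W * c₂, by positivity, fun G y H hH P hP hPH hT => ?_⟩
  obtain ⟨N, hN⟩ : ∃ N : ℝ, N = P.natDegree := ⟨_, rfl⟩
  have hN1 : 1 ≤ N := by
    rw [hN]
    exact_mod_cast hP.2.1
  rw [← hN] at hT hPH ⊢
  have h3 := core' hθ hW (prs y N) hT (S := {P}) (singleton_nonempty P) hH
      (fun R hR => by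
        rw [mem_singleton] at hR
        subst hR
        rw [← hN]
        exact ⟨hP, hPH⟩) (D := N) (by rw [sum_singleton, hN])
  have hdg : ∀ p, dgp G {P} p = gc (G p) P := fun p => by
    unfold dgp
    rw [sum_singleton]
  simp only [hdg] at h3
  have hle : ∀ p, (gc (G p) P : ℝ) ≤ N := fun p => by
    rw [hN]
    exact_mod_cast gc_le _ P
  have h6 : ∑ p ∈ prs y N, Real.log p * (gc (G p) P : ℝ) ≤ N * (2 * N) := by
    calc _ ≤ ∑ p ∈ prs y N, Real.log p * N :=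
          Finset.sum_le_sum fun p _ => mul_le_mul_of_nonneg_left (hle p) (logp_nonneg p)
      _ = N * ∑ p ∈ prs y N, Real.log p := by rw [← Finset.sum_mul, mul_comm]
      _ ≤ _ := mul_le_mul_of_nonneg_left (theta_prs (by linarith)) (by linarith)
  have h7 : Real.log N ≤ N := by
    have := Real.log_le_sub_one_of_pos (by linarith : (0 : ℝ) < N)
    linarith
  have h8 : N ^ 2 * ∑ p ∈ prs y N, ((gc (G p) P : ℝ) / N) ^ 2 * (Real.log p / (p + W)) ≤
      N ^ 2 * (2 * θ * (H + 3)) := by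
    have e0 : N ^ 2 * ∑ p ∈ prs y N, ((gc (G p) P : ℝ) / N) ^ 2 * (Real.log p / (p + W)) =
        ∑ p ∈ prs y N, Real.log p * ((gc (G p) P : ℝ) ^ 2 / (p + W)) := by
      rw [Finset.mul_sum]
      refine Finset.sum_congr rfl fun p _ => ?_
      have : N ≠ 0 := by linarith
      field_simp
    rw [e0]
    refine h3.trans ?_
    have e1 : N ^ 2 * H + N * Real.log N + ∑ p ∈ prs y N, Real.log p * (gc (G p) P : ℝ) ≤ N ^ 2 * (H + 3) := by
      nlinarith
    calc _ ≤ 2 * θ * (N ^ 2 * (H + 3)) := mul_le_mul_of_nonneg_left e1 (by positivity)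
      _ = _ := by ring
  have h9 := le_of_mul_le_mul_left h8 (by positivity)
  have h10 : ∑ p ∈ prs y N, ((gc (G p) P : ℝ) / N) ^ 2 * (Real.log p / p) ≤
      ∑ p ∈ prs y N, (((gc (G p) P : ℝ) / N) ^ 2 * (Real.log p / (p + W)) + W * (Real.log p / (p : ℝ) ^ 2)) := by
    refine Finset.sum_le_sum fun p _ => ?_
    have e2 := log_div_le (p := p) hW
    have e3 : ((gc (G p) P : ℝ) / N) ^ 2 ≤ 1 := by
      have e4 : (gc (G p) P : ℝ) / N ≤ 1 := by
        rw [div_le_one (by linarith)]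
        exact hle p
      have e5 : 0 ≤ (gc (G p) P : ℝ) / N := by positivity
      nlinarith
    have e4 : 0 ≤ ((gc (G p) P : ℝ) / N) ^ 2 := sq_nonneg _
    have e5 : 0 ≤ W * (Real.log p / (p : ℝ) ^ 2) := mul_nonneg hW (div_nonneg (logp_nonneg p) (sq_nonneg _))
    have e6 := mul_le_mul_of_nonneg_left e2 e4
    nlinarith
  rw [Finset.sum_add_distrib, ← Finset.mul_sum] at h10
  have h11 := mul_le_mul_of_nonneg_left (hc₂ (prs y N)) hW
  linarith

/-- The weighted sum of `log p / p` over the bad places. -/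
noncomputable def badP (G : ℕ → ℂ → Prop) (y x : ℝ) (P : ℤ[X]) : ℝ :=
  ∑ p ∈ prs y x, (1 - (gc (G p) P : ℝ) / P.natDegree) * (Real.log p / p)

/-- **The number of the algebraic numbers with a small proportion of bad places.** -/
theorem count' {θ W β : ℝ} (hθ : 0 < θ) (hW : 0 ≤ W) (hβ : 0 < β) (M : ℝ) : ∃ C : ℝ, 1 ≤ C ∧
    ∀ (G : ℕ → ℂ → Prop) (y H x : ℝ), 1 ≤ y → 0 ≤ H → x = C * y * Real.exp (2 * θ * H / β ^ 2) →
      (∀ p ∈ prs y x, TestR θ W (G p) p) → ∀ S : Finset ℤ[X],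
        (∀ P ∈ S, Orb P ∧ Real.log (mm P) ≤ P.natDegree * H ∧ badP G y x P ≤ (1 - β) * Real.log (x / y) + M) →
          ∑ P ∈ S, (P.natDegree : ℝ) ≤ x := by
  classical
  obtain ⟨c, hc0, hc⟩ := mertens
  obtain ⟨c₂, hc₂0, hc₂⟩ := sum_log_sq
  obtain ⟨M₂, hM₂⟩ : ∃ M₂, M₂ = 2 * c + |M| := ⟨_, rfl⟩
  have hM₂0 : 0 ≤ M₂ := by
    have := abs_nonneg M
    rw [hM₂]
    positivity
  obtain ⟨K, hK⟩ : ∃ K, K = 2 * c + 2 * M₂ / β := ⟨_, rfl⟩
  have hK0 : 0 ≤ K := by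
    rw [hK]
    positivity
  have hKβ : β * K = 2 * c * β + 2 * M₂ := by
    rw [hK]
    field_simp
  refine ⟨Real.exp (K + (6 * θ + W * c₂) / β ^ 2), Real.one_le_exp (by positivity), ?_⟩
  intro G y H x hy hH hx hT S hS
  obtain ⟨a, ha⟩ : ∃ a, a = 2 * θ * H + (6 * θ + W * c₂) := ⟨_, rfl⟩
  have ha0 : 0 < a := by
    rw [ha]
    positivity
  obtain ⟨Λ, hΛ⟩ : ∃ Λ, Λ = K + a / β ^ 2 := ⟨_, rfl⟩
  have hΛ0 : 0 < Λ := by
    rw [hΛ]
    positivity
  have hxΛ : x = y * Real.exp Λ := by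
    rw [hx, hΛ, ha, mul_comm _ y, mul_assoc, ← Real.exp_add]
    congr 2
    field_simp
    ring
  have hyx : y ≤ x := by
    rw [hxΛ]
    have := Real.one_le_exp hΛ0.le
    nlinarith
  have hx1 : 1 ≤ x := hy.trans hyx
  have hlogxy : Real.log (x / y) = Λ := by
    rw [hxΛ, mul_div_assoc, mul_comm, div_mul_cancel₀ _ (by linarith : y ≠ 0), Real.log_exp]
  rw [hlogxy] at hS
  have hγ0 : 0 ≤ β * Λ - M₂ := by
    have h1 : β * K ≤ β * Λ := by
      refine mul_le_mul_of_nonneg_left ?_ hβ.le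
      rw [hΛ]
      have : 0 ≤ a / β ^ 2 := by positivity
      linarith
    have h2 : 0 ≤ 2 * c * β := by positivity
    linarith
  by_contra hcon
  push Not at hcon
  obtain ⟨D, hD⟩ : ∃ D : ℝ, D = ∑ P ∈ S, (P.natDegree : ℝ) := ⟨_, rfl⟩
  rw [← hD] at hcon
  have hD0 : 0 < D := by linarith
  have hne : S.Nonempty := by
    rw [Finset.nonempty_iff_ne_empty]
    rintro rfl
    rw [sum_empty] at hD
    linarith
  have hdgD : ∀ p, (dgp G S p : ℝ) ≤ D := by
    intro p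
    rw [hD]
    have := dgp_le G S p
    exact_mod_cast this
  have key := core' hθ hW (prs y x) hT hne hH (fun P hP => ⟨(hS P hP).1, (hS P hP).2.1⟩) hD
  -- the upper bound
  have h1 : ∑ p ∈ prs y x, Real.log p * (dgp G S p : ℝ) ≤ D * (2 * x) := by
    calc ∑ p ∈ prs y x, Real.log p * (dgp G S p : ℝ) ≤ ∑ p ∈ prs y x, Real.log p * D :=
          Finset.sum_le_sum fun p _ => mul_le_mul_of_nonneg_left (hdgD p) (logp_nonneg p)
      _ = D * ∑ p ∈ prs y x, Real.log p := by rw [← Finset.sum_mul, mul_comm]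
      _ ≤ D * (2 * x) := mul_le_mul_of_nonneg_left (theta_prs (by linarith)) hD0.le
  have h7 : Real.log D ≤ D := by
    have := Real.log_le_sub_one_of_pos hD0
    linarith
  have h2 : ∑ p ∈ prs y x, Real.log p * ((dgp G S p : ℝ) ^ 2 / (p + W)) < D ^ 2 * (2 * θ * (H + 3)) := by
    refine key.trans_lt ?_
    have e1 : D ^ 2 * H + D * Real.log D + ∑ p ∈ prs y x, Real.log p * (dgp G S p : ℝ) < D ^ 2 * (H + 3) := by
      nlinarith
    calc _ < 2 * θ * (D ^ 2 * (H + 3)) := mul_lt_mul_of_pos_left e1 (by positivity)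
      _ = _ := by ring
  have h3 : ∑ p ∈ prs y x, Real.log p / p * (dgp G S p : ℝ) ^ 2 < D ^ 2 * a := by
    have e1 : ∀ p ∈ prs y x, Real.log p / p * (dgp G S p : ℝ) ^ 2 ≤
        Real.log p * ((dgp G S p : ℝ) ^ 2 / (p + W)) + D ^ 2 * W * (Real.log p / (p : ℝ) ^ 2) := by
      intro p _
      have e2 := mul_le_mul_of_nonneg_right (log_div_le (p := p) hW) (sq_nonneg (dgp G S p : ℝ))
      have e3 : (dgp G S p : ℝ) ^ 2 ≤ D ^ 2 := pow_le_pow_left₀ (Nat.cast_nonneg _) (hdgD p) 2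
      have e4 : W * (Real.log p / (p : ℝ) ^ 2) * (dgp G S p : ℝ) ^ 2 ≤ W * (Real.log p / (p : ℝ) ^ 2) * D ^ 2 :=
        mul_le_mul_of_nonneg_left e3 (mul_nonneg hW (div_nonneg (logp_nonneg p) (sq_nonneg _)))
      calc _ ≤ _ := e2
        _ = Real.log p * ((dgp G S p : ℝ) ^ 2 / (p + W)) + W * (Real.log p / (p : ℝ) ^ 2) * (dgp G S p : ℝ) ^ 2 := by
            ring
        _ ≤ _ := by linarith
    have e2 := Finset.sum_le_sum e1
    rw [Finset.sum_add_distrib, ← Finset.mul_sum] at e2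
    have e3 : D ^ 2 * W * ∑ p ∈ prs y x, Real.log p / (p : ℝ) ^ 2 ≤ D ^ 2 * W * c₂ :=
      mul_le_mul_of_nonneg_left (hc₂ _) (by positivity)
    rw [ha]
    nlinarith
  -- the lower bound
  have h4 : D * (β * Λ - M₂) ≤ ∑ p ∈ prs y x, Real.log p / p * dgp G S p := by
    have e0 : ∑ p ∈ prs y x, Real.log p / p * dgp G S p =
        ∑ P ∈ S, (P.natDegree : ℝ) * ∑ p ∈ prs y x, (gc (G p) P : ℝ) / P.natDegree * (Real.log p / p) := by
      have e1 : ∀ p ∈ prs y x, Real.log p / p * (dgp G S p : ℝ) =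
          ∑ P ∈ S, (P.natDegree : ℝ) * ((gc (G p) P : ℝ) / P.natDegree * (Real.log p / p)) := by
        intro p _
        unfold dgp
        push_cast
        rw [Finset.mul_sum]
        refine Finset.sum_congr rfl fun P hP => ?_
        have : (P.natDegree : ℝ) ≠ 0 := by exact_mod_cast (hS P hP).1.2.1.ne'
        field_simp
      rw [Finset.sum_congr rfl e1, Finset.sum_comm]
      refine Finset.sum_congr rfl fun P _ => ?_
      rw [Finset.mul_sum]
    rw [e0, hD, Finset.sum_mul]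
    refine Finset.sum_le_sum fun P hP => mul_le_mul_of_nonneg_left ?_ (Nat.cast_nonneg _)
    have e1 : ∑ p ∈ prs y x, Real.log p / p =
        ∑ p ∈ prs y x, (gc (G p) P : ℝ) / P.natDegree * (Real.log p / p) + badP G y x P := by
      unfold badP
      rw [← Finset.sum_add_distrib]
      refine Finset.sum_congr rfl fun p _ => ?_
      ring
    have e2 := (sum_prs hc hy hyx).1
    rw [hlogxy] at e2
    have e3 := (hS P hP).2.2
    have e4 := le_abs_self M
    rw [hM₂]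
    linarith
  have h5 : (∑ p ∈ prs y x, Real.log p / p * dgp G S p) ^ 2 ≤
      (∑ p ∈ prs y x, Real.log p / p) * ∑ p ∈ prs y x, Real.log p / p * (dgp G S p : ℝ) ^ 2 := by
    refine Finset.sum_sq_le_sum_mul_sum_of_sq_le_mul (prs y x) (fun p _ => ?_) (fun p _ => ?_) fun p _ => ?_
    · exact div_nonneg (logp_nonneg p) (Nat.cast_nonneg p)
    · exact mul_nonneg (div_nonneg (logp_nonneg p) (Nat.cast_nonneg p)) (sq_nonneg _)
    · exact le_of_eq (by ring)
  have h6 := (sum_prs hc hy hyx).2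
  rw [hlogxy] at h6
  have h8 : (D * (β * Λ - M₂)) ^ 2 < D ^ 2 * (a * (Λ + 2 * c)) := by
    calc (D * (β * Λ - M₂)) ^ 2 ≤ (∑ p ∈ prs y x, Real.log p / p * dgp G S p) ^ 2 :=
          pow_le_pow_left₀ (by positivity) h4 2
      _ ≤ (∑ p ∈ prs y x, Real.log p / p) * ∑ p ∈ prs y x, Real.log p / p * (dgp G S p : ℝ) ^ 2 := h5
      _ ≤ (Λ + 2 * c) * ∑ p ∈ prs y x, Real.log p / p * (dgp G S p : ℝ) ^ 2 := by
          refine mul_le_mul_of_nonneg_right h6 (Finset.sum_nonneg fun p _ => ?_)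
          exact mul_nonneg (div_nonneg (logp_nonneg p) (Nat.cast_nonneg p)) (sq_nonneg _)
      _ < (Λ + 2 * c) * (D ^ 2 * a) := mul_lt_mul_of_pos_left h3 (by positivity)
      _ = _ := by ring
  rw [mul_pow] at h8
  have h9 := lt_of_mul_lt_mul_left h8 (sq_nonneg D)
  have h10 : a * (Λ + 2 * c) ≤ (β * Λ - M₂) ^ 2 := by
    have e1 : β ^ 2 * Λ = β ^ 2 * K + a := by
      rw [hΛ]
      field_simp
    have e2 : (β * Λ - M₂) ^ 2 = Λ * (β ^ 2 * Λ) - 2 * M₂ * (β * Λ) + M₂ ^ 2 := by ring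
    rw [e2, e1]
    have e3 : β ^ 2 * K = β * (2 * c * β + 2 * M₂) := by
      rw [← hKβ]
      ring
    rw [e3]
    have e4 : a ≤ β ^ 2 * Λ := by
      rw [e1]
      have : 0 ≤ β ^ 2 * K := by positivity
      linarith
    have e5 : a * (2 * c) ≤ β ^ 2 * Λ * (2 * c) := by gcongr
    nlinarith [sq_nonneg M₂]
  linarith

end Pool.Agent.H446.AP6
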