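import Pool.Agent.H446.AP6.Place
import Pool.Agent.H446.AP4.Vand

/-!
# Divisibility of the discriminant if some of the roots are good
-/

set_option autoImplicit false

namespace Pool.Agent.H446.AP6

open Matrix Polynomial Finset Pool.Agent.H446.AP Pool.Agent.H446.AP4 Pool.Agent.H446.AP5

lemma sum_range_le_sum (f : ℕ → ℕ) (hf : Monotone f) (T : Finset ℕ) :
    ∑ j ∈ range T.card, f j ≤ ∑ t ∈ T, f t := by
  classical
  induction T using Finset.induction_on_max with
  | empty => simp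
  | insert a s ha ih =>
    have hns : a ∉ s := fun h => lt_irrefl _ (ha a h)
    rw [card_insert_of_notMem hns, sum_range_succ, sum_insert hns, add_comm]
    refine Nat.add_le_add (hf ?_) ih
    have h1 : s ⊆ range a := fun x hx => mem_range.2 (ha x hx)
    have h2 := card_le_card h1
    rwa [card_range] at h2

lemma vE_mono {q : ℕ} : Monotone fun D => vE D q := fun _ _ h =>
  Finset.sum_le_sum_of_subset (range_mono h)

lemma sum_perm_ge {D q : ℕ} (σ : Equiv.Perm (Fin D)) (T : Finset (Fin D)) :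
    vE T.card q ≤ ∑ i ∈ T, (σ i : ℕ) / q := by
  classical
  have hinj : Function.Injective fun i : Fin D => (σ i : ℕ) := fun i j h => σ.injective (Fin.ext h)
  have h1 := sum_range_le_sum (fun j => j / q) (fun _ _ h => Nat.div_le_div_right h) (T.image fun i => (σ i : ℕ))
  rw [card_image_of_injective _ hinj, sum_image fun i _ j _ h => hinj h] at h1
  exact h1

/-- The integrality of products of values of polynomials at the roots. -/
lemma prod_eval_mem {p : ℕ} {O : Subring ℂ} (hO : IsPl p O) {D E : ℕ} {c : ℂ} {v : Fin D → ℂ}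
    (hc : IC (C c * ∏ i, (X - C (v i)))) {h : Fin D → ℂ[X]} (hh : ∀ i k, (h i).coeff k ∈ O)
    (hd : ∀ i, (h i).natDegree ≤ E) : c ^ E * ∏ i, (h i).eval (v i) ∈ O := by
  classical
  have h1 : ∀ i, (h i).eval (v i) = ∑ k ∈ range (E + 1), (h i).coeff k * v i ^ k := fun i =>
    eval_eq_sum_range' (Nat.lt_succ_of_le (hd i)) _
  simp only [h1]
  rw [Finset.prod_univ_sum, Finset.mul_sum]
  refine O.sum_mem fun x hx => ?_
  rw [Fintype.mem_piFinset] at hx
  rw [Finset.prod_mul_distrib, mul_left_comm]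
  refine O.mul_mem (O.prod_mem fun i _ => hh _ _) (hO.int _ ?_)
  exact isIntegral_pow_mul_prod hc E x fun i => Nat.lt_succ_iff.1 (mem_range.1 (hx i))

/-- **The key lemma.** If the values of a polynomial of degree `q` at some of the roots of `F` are divisible by `p`, then
a high power of `p` divides the resultant of `F` and its derivative. -/
theorem pow_dvd_rd {p : ℕ} (hp : p.Prime) {O : Subring ℂ} (hO : IsPl p O) {F B : ℤ[X]} (hF0 : 0 < F.natDegree)
    (hB : ¬ (p : ℤ) ∣ B.leadingCoeff) {v : Fin (F.map (Int.castRingHom ℂ)).natDegree → ℂ}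
    (hv : (F.map (Int.castRingHom ℂ)).roots = univ.val.map v)
    (T : Finset (Fin (F.map (Int.castRingHom ℂ)).natDegree))
    (h : ∀ i ∈ T, v i ∈ O ∧ ∃ y ∈ O, aeval (v i) B = p * y) :
    (p : ℤ) ^ (2 * vE T.card B.natDegree) ∣ rd F := by
  classical
  have hdeg := mm_natDegree F
  have hF0' := hF0
  rw [← hdeg] at hF0'
  have h2 : resultant (F.map (Int.castRingHom ℂ)) (derivative (F.map (Int.castRingHom ℂ)))
      (F.map (Int.castRingHom ℂ)).natDegree ((F.map (Int.castRingHom ℂ)).natDegree - 1) = ((rd F : ℤ) : ℂ) := by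
    rw [hdeg, derivative_map, resultant_map_map, eq_intCast]
    rfl
  have hIC0 : IC (F.map (Int.castRingHom ℂ)) := by
    intro k
    rw [coeff_map]
    exact isIntegral_algebraMap
  have hlc : (F.map (Int.castRingHom ℂ)).leadingCoeff ∈ O := by
    rw [leadingCoeff_map_of_injective (RingHom.injective_int _), eq_intCast]
    exact intCast_mem O _
  clear hdeg hF0
  revert v T h2 hIC0 hlc hF0'
  generalize F.map (Int.castRingHom ℂ) = f
  intro v hv T h hF0 h2 hIC0 hlc
  have hfv : f = C f.leadingCoeff * ∏ i, (X - C (v i)) := by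
    have h1 := (IsAlgClosed.splits f).eq_prod_roots
    rw [hv, Multiset.map_map] at h1
    exact h1
  have hB0 : B ≠ 0 := by
    rintro rfl
    exact hB (by simp)
  have hlB : ((B.leadingCoeff : ℤ) : ℂ) ≠ 0 := by
    exact_mod_cast leadingCoeff_ne_zero.2 hB0
  set q := B.natDegree with hq
  set b : ℂ[X] := C ((B.leadingCoeff : ℤ) : ℂ)⁻¹ * B.map (Int.castRingHom ℂ) with hb
  have hbq : (B.map (Int.castRingHom ℂ)).natDegree = q := mm_natDegree B
  have hbm : b.Monic := by
    rw [Monic, hb, leadingCoeff_mul, leadingCoeff_C,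
      leadingCoeff_map_of_injective (RingHom.injective_int _), eq_intCast, inv_mul_cancel₀ hlB]
  have hbd : b.natDegree = q := by
    rw [hb, natDegree_C_mul (inv_ne_zero hlB), hbq]
  -- the coefficients
  let 𝒮 : Subring ℂ[X] := (mapRingHom O.subtype).range
  have hcoef : ∀ g ∈ 𝒮, ∀ k, g.coeff k ∈ O := by
    rintro _ ⟨g, rfl⟩ k
    rw [coe_mapRingHom, coeff_map]
    exact (g.coeff k).2
  have hXS : (X : ℂ[X]) ∈ 𝒮 := ⟨X, by rw [coe_mapRingHom, map_X]⟩
  have hbS : b ∈ 𝒮 := by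
    refine 𝒮.mul_mem ⟨C ⟨_, hO.inv _ hB⟩, by rw [coe_mapRingHom, map_C]; rfl⟩ ⟨B.map (Int.castRingHom O), ?_⟩
    rw [coe_mapRingHom, Polynomial.map_map, show O.subtype.comp (Int.castRingHom O) = Int.castRingHom ℂ from
      RingHom.ext_int _ _]
  -- the polynomials
  let g : Fin f.natDegree → ℂ[X] := fun j => b ^ ((j : ℕ) / q) * X ^ ((j : ℕ) % q)
  have hgS : ∀ j, g j ∈ 𝒮 := fun j => 𝒮.mul_mem (𝒮.pow_mem hbS _) (𝒮.pow_mem hXS _)
  have hgm : ∀ j, (g j).Monic := fun j => (hbm.pow _).mul (monic_X_pow _)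
  have hgd : ∀ j, (g j).natDegree = j := by
    intro j
    simp only [g]
    rw [(hbm.pow _).natDegree_mul (monic_X_pow _), hbm.natDegree_pow, natDegree_X_pow, hbd, mul_comm]
    exact Nat.div_add_mod _ _
  have hdet : (vandermonde v).det = ∑ σ : Equiv.Perm (Fin f.natDegree), ((Equiv.Perm.sign σ : ℤ) : ℂ) *
      ∏ i, (g (σ i)).eval (v i) := by
    rw [det_eval_matrixOfPolynomials_eq_det_vandermonde v g hgd hgm, ← det_transpose, det_apply']
    rfl
  -- the terms
  have hIC : IC (C f.leadingCoeff * ∏ i, (X - C (v i))) := by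
    rw [← hfv]
    exact hIC0
  obtain ⟨c, hc⟩ : ∃ c, c = f.leadingCoeff := ⟨_, rfl⟩
  rw [← hc] at hIC hlc
  have hterm : ∀ σ : Equiv.Perm (Fin f.natDegree), ∃ z ∈ O,
      c ^ (f.natDegree - 1) * ∏ i, (g (σ i)).eval (v i) = (p : ℂ) ^ vE T.card q * z := by
    intro σ
    have hgood : ∀ i ∈ T, ∃ z ∈ O, (g (σ i)).eval (v i) = (p : ℂ) ^ ((σ i : ℕ) / q) * z := by
      intro i hi
      obtain ⟨hvi, y, hy, hyB⟩ := h i hi
      refine ⟨(((B.leadingCoeff : ℤ) : ℂ)⁻¹ * y) ^ ((σ i : ℕ) / q) * (v i) ^ ((σ i : ℕ) % q),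
        O.mul_mem (O.pow_mem (O.mul_mem (hO.inv _ hB) hy) _) (O.pow_mem hvi _), ?_⟩
      have hbv : b.eval (v i) = p * (((B.leadingCoeff : ℤ) : ℂ)⁻¹ * y) := by
        rw [hb, eval_mul, eval_C, eval_map]
        rw [aeval_def, show algebraMap ℤ ℂ = Int.castRingHom ℂ from RingHom.ext_int _ _] at hyB
        rw [hyB]
        ring
      simp only [g]
      rw [eval_mul, eval_pow, eval_pow, eval_X, hbv, mul_pow]
      ring
    choose! z hzO hz using hgood
    have h1 : ∏ i, (g (σ i)).eval (v i) = (∏ i ∈ T, (g (σ i)).eval (v i)) *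
        ∏ i, (if i ∈ T then (1 : ℂ[X]) else g (σ i)).eval (v i) := by
      have h2 : ∀ i, (g (σ i)).eval (v i) = (if i ∈ T then (g (σ i)).eval (v i) else 1) *
          (if i ∈ T then (1 : ℂ[X]) else g (σ i)).eval (v i) := by
        intro i
        split_ifs <;> simp
      rw [Finset.prod_congr rfl fun i _ => h2 i, Finset.prod_mul_distrib, Finset.prod_ite_mem]
      congr 1
      rw [univ_inter]
    have h3 := prod_eval_mem hO hIC (E := f.natDegree - 1) (h := fun i => if i ∈ T then (1 : ℂ[X]) else g (σ i))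
      (fun i k => by
        refine hcoef _ ?_ k
        split_ifs
        · exact 𝒮.one_mem
        · exact hgS _) (fun i => by
        split_ifs
        · rw [natDegree_one]
          exact Nat.zero_le _
        · rw [hgd]
          have := (σ i).2
          omega)
    obtain ⟨e, he⟩ := Nat.exists_eq_add_of_le (sum_perm_ge (q := q) σ T)
    refine ⟨(p : ℂ) ^ e * (∏ i ∈ T, z i) * (c ^ (f.natDegree - 1) *
      ∏ i, (if i ∈ T then (1 : ℂ[X]) else g (σ i)).eval (v i)),
      O.mul_mem (O.mul_mem (O.pow_mem (natCast_mem _ _) _) (O.prod_mem hzO)) h3, ?_⟩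
    rw [h1, Finset.prod_congr rfl hz, Finset.prod_mul_distrib, Finset.prod_pow_eq_pow_sum, he, pow_add]
    ring
  choose z hzO hz using hterm
  have hdet2 : c ^ (f.natDegree - 1) * (vandermonde v).det =
      (p : ℂ) ^ vE T.card q * ∑ σ : Equiv.Perm (Fin f.natDegree), ((Equiv.Perm.sign σ : ℤ) : ℂ) * z σ := by
    rw [hdet, Finset.mul_sum, Finset.mul_sum]
    refine Finset.sum_congr rfl fun σ _ => ?_
    rw [mul_left_comm, hz σ]
    ring
  have hZ : ∑ σ : Equiv.Perm (Fin f.natDegree), ((Equiv.Perm.sign σ : ℤ) : ℂ) * z σ ∈ O :=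
    O.sum_mem fun σ _ => O.mul_mem (intCast_mem _ _) (hzO σ)
  obtain ⟨Z, hZdef⟩ : ∃ Z, Z = ∑ σ : Equiv.Perm (Fin f.natDegree), ((Equiv.Perm.sign σ : ℤ) : ℂ) * z σ := ⟨_, rfl⟩
  rw [← hZdef] at hZ hdet2
  -- the resultant
  have h1 := resultant_deriv_eq f hF0 hv hfv
  rw [h2, ← hc] at h1
  refine hO.pow_dvd hp _ _ (c * ((∏ i : Fin f.natDegree, ∏ _j ∈ Ioi i, (-1 : ℂ)) * Z ^ 2)) ?_ ?_
  · refine O.mul_mem hlc (O.mul_mem ?_ (O.pow_mem hZ _))
    exact O.prod_mem fun i _ => O.prod_mem fun _ _ => O.neg_mem O.one_mem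
  · rw [h1]
    have h3 : 2 * f.natDegree - 1 = (f.natDegree - 1) + (f.natDegree - 1) + 1 := by omega
    have h4 : c ^ (2 * f.natDegree - 1) * ((∏ i : Fin f.natDegree, ∏ _j ∈ Ioi i, (-1 : ℂ)) *
        (vandermonde v).det ^ 2) = c * ((∏ i : Fin f.natDegree, ∏ _j ∈ Ioi i, (-1 : ℂ)) *
          (c ^ (f.natDegree - 1) * (vandermonde v).det) ^ 2) := by
      rw [h3, pow_add, pow_add]
      ring
    rw [h4, hdet2]
    ring

end Pool.Agent.H446.AP6
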